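import Mathlib

open Set Cardinal MeasureTheory

/-- If `cov(M) = cof(M) = κ` is singular, then some `κ`-Luzin set is a union of fewer than `κ`
meager sets. -/
theorem Pool.Agent.Results.MP_54b694_lc.Cons.result (κ : Cardinal.{0})
    (hκ : κ = sInf {c | ∃ F : Set (Set ℝ), #F = c ∧ (∀ M ∈ F, IsMeagre M) ∧ ⋃₀ F = Set.univ})
    (hs : κ.ord.cof < κ)
    (hB : ∃ B : Set (Set ℝ), #B ≤ κ ∧ (∀ M ∈ B, IsMeagre M) ∧
      ∀ M, IsMeagre M → ∃ N ∈ B, M ⊆ N) :
    ∃ X : Set ℝ, (κ ≤ #X ∧ ∀ M, IsMeagre M → #(X ∩ M : Set ℝ) < κ) ∧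
      ∃ F : Set (Set ℝ), #F < κ ∧ (∀ M ∈ F, IsMeagre M) ∧ ⋃₀ F = X := by
  obtain ⟨B, h1, h2, h3⟩ := hB
  have sg : ∀ x : ℝ, IsMeagre {x} := fun x =>
    (isClosed_singleton.isNowhereDense_iff.2 (interior_singleton x)).isMeagre
  have av : ∀ (ι : Type) (M : ι → Set ℝ), #ι < κ → (∀ i, IsMeagre (M i)) → ∃ x, ∀ i, x ∉ M i :=
    fun ι M a b => by
    by_contra! c
    exact a.not_ge ((hκ.trans_le (csInf_le' ⟨range M, rfl, forall_mem_range.2 b, by
      rw [sUnion_range]; exact eq_univ_of_forall fun x => mem_iUnion.2 (c x)⟩)).trans mk_range_le)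
  have hc : κ ≤ 𝔠 := by
    by_contra! c
    obtain ⟨x, hx⟩ := av ℝ (fun x => {x}) (by rwa [mk_real]) sg
    exact hx x rfl
  have h0 : ℵ₀ ≤ κ := by
    rw [hκ]
    refine le_csInf ⟨_, range fun x : ℝ => {x}, rfl, forall_mem_range.2 sg, by
      rw [sUnion_range, iUnion_of_singleton]⟩ ?_
    rintro _ ⟨F, rfl, a, b⟩
    by_contra! c
    have := isMeagre_biUnion (le_aleph0_iff_set_countable.1 c.le) a
    rw [← sUnion_eq_biUnion, b] at this
    exact not_isMeagre_of_isOpen isOpen_univ univ_nonempty this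
  have hK : 𝔠 ≤ #({x | Liouville x}ᶜ : Set ℝ) := by
    by_contra! c
    obtain ⟨t, ht⟩ : ∃ t, t ∉ range fun p : ({x | Liouville x}ᶜ : Set ℝ) ×
        ({x | Liouville x}ᶜ : Set ℝ) => p.1.1 - p.2.1 := by
      by_contra! d
      have := mk_range_le (f := fun p : ({x | Liouville x}ᶜ : Set ℝ) ×
        ({x | Liouville x}ᶜ : Set ℝ) => p.1.1 - p.2.1)
      rw [eq_univ_of_forall d, Cardinal.mk_univ, mk_real, mk_prod, Cardinal.lift_id] at this
      exact this.not_gt (mul_lt_of_lt aleph0_le_continuum c c)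
    obtain ⟨x, a, b⟩ := (ae_not_liouville.and
      ((measurePreserving_add_right volume t).quasiMeasurePreserving.ae ae_not_liouville)).exists
    exact ht ⟨(⟨_, b⟩, ⟨_, a⟩), by simp⟩
  have hI : ∀ a : κ.ord.ToType, #(Iic a) < κ := fun a => by
    rw [← Iio_insert]
    exact mk_insert_le.trans_lt (add_lt_of_lt h0 (by simpa using mk_Iio_lt a (by simp))
      (one_lt_aleph0.trans_le h0))
  obtain ⟨S, s1, s2⟩ := Order.exists_cof_eq κ.ord.ToType
  have s3 : #S < κ := s2.trans_lt (by rwa [Ordinal.cof_toType])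
  obtain ⟨e⟩ : Nonempty (B ↪ κ.ord.ToType) := by rwa [← Cardinal.le_def, mk_ord_toType]
  choose Y y1 y2 using fun a : S => le_mk_iff_exists_subset.1 ((hI a).le.trans (hc.trans hK))
  choose x hx using fun a : S => av (Y a × (e ⁻¹' Iic a.1)) (fun p => (· + p.1.1) ⁻¹' p.2.1.1)
    (by
      rw [mk_prod, lift_id, lift_id, y2]
      exact mul_lt_of_lt h0 (hI a) ((mk_preimage_of_injective _ _ e.injective).trans_lt (hI a)))
    fun p => (h2 _ p.2.1.2).preimage_of_isOpenMap (continuous_add_const _) (isOpenMap_add_right _)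
  let X : S → Set ℝ := fun a => (x a + ·) '' Y a
  have x2 : ∀ a, #(X a) = #(Iic a.1) := fun a =>
    (mk_image_eq (add_right_injective _)).trans (y2 a)
  refine ⟨⋃ a, X a, ⟨?_, fun M hM => ?_⟩, range X, mk_range_le.trans_lt s3,
    forall_mem_range.2 fun a => ?_, sUnion_range _⟩
  · by_contra! c
    have : (⋃ a : S, Iic a.1) = Set.univ := eq_univ_of_forall fun b => by
      obtain ⟨a, d, f⟩ := s1 b
      exact mem_iUnion.2 ⟨⟨a, d⟩, f⟩
    have k := (mk_iUnion_le_sum_mk (f := fun a : S => Iic a.1)).trans (sum_le_sum _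
      (fun _ => #(⋃ a, X a)) fun a => (x2 a).ge.trans (mk_le_mk_of_subset (subset_iUnion X a)))
    rw [this, Cardinal.mk_univ, mk_ord_toType, sum_const'] at k
    exact k.not_gt (mul_lt_of_lt h0 s3 c)
  · obtain ⟨K, a, b⟩ := h3 M hM
    refine (mk_le_mk_of_subset (t := ⋃ c : {c : S // c.1 < e ⟨K, a⟩}, X c) ?_).trans_lt
      ((mk_iUnion_le_sum_mk.trans (sum_le_sum _ (fun _ => #(Iic (e ⟨K, a⟩))) fun c =>
        (x2 _).trans_le (mk_le_mk_of_subset (Iic_subset_Iic.2 c.2.le)))).trans_lt ?_)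
    · rintro z ⟨c, d⟩
      obtain ⟨u, y, f, rfl⟩ := mem_iUnion.1 c
      exact mem_iUnion.2 ⟨⟨u, not_le.1 fun g => hx u (⟨y, f⟩, ⟨⟨K, a⟩, g⟩) (b d)⟩, y, f, rfl⟩
    · rw [sum_const']
      exact mul_lt_of_lt h0 ((mk_subtype_le _).trans_lt s3) (hI _)
  · have : IsMeagre {x | Liouville x}ᶜ := by
      rw [IsMeagre, compl_compl]
      exact eventually_residual_liouville
    refine Filter.mem_of_superset (this.preimage_of_isOpenMap (continuous_sub_right (x a))
      (isOpenMap_sub_right _)) (compl_subset_compl.2 ?_)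
    rintro _ ⟨y, f, rfl⟩
    simpa using y1 a f
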